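import Pool.Agent.Helper75.Torus.Goals
import Pool.Agent.Helper33.Slab.AJ

set_option autoImplicit false

/-!
# Packet TORUS-EV: evolution of the pairing with a fixed test field
-/

open Set Filter Topology MeasureTheory Matrix

namespace Pool.Agent.Helper73.Torus

open Pool.Agent.Helper75.Torus
open Pool.Agent.Helper75.Flow (LipField IsFlow IsJac EulerOn curlL)

/-! ## Differentiation under the integral sign -/

theorem deriv_int {t : ℝ} (ht : 0 ≤ t) {F F' : ℝ → E → ℝ} {S : Set E} (hS : IsCompact S)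
    (h1 : ∀ Y, ∀ s ∈ Icc 0 t, HasDerivWithinAt (fun τ => F τ Y) (F' s Y) (Icc 0 t) s)
    (h2 : ContinuousOn (fun z : ℝ × E => F' z.1 z.2) (Icc 0 t ×ˢ univ))
    (h3 : Continuous (F 0))
    (h4 : ∀ s ∈ Icc 0 t, ∀ Y, Y ∉ S → F' s Y = 0) (h5 : ∀ Y, Y ∉ S → F 0 Y = 0) :
    ∀ s ∈ Icc 0 t, HasDerivWithinAt (fun τ => ∫ Y, F τ Y) (∫ Y, F' s Y) (Icc 0 t) s := by
  intro s hs
  set G : ℝ → E → ℝ := fun r Y => F' (projIcc 0 t ht r) Y with hG
  have hGc : Continuous (Function.uncurry G) := by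
    have hm : Continuous (fun z : ℝ × E => (((projIcc 0 t ht z.1 : Icc 0 t) : ℝ), z.2)) :=
      (continuous_subtype_val.comp (continuous_projIcc.comp continuous_fst)).prodMk continuous_snd
    exact h2.comp_continuous hm (fun z => ⟨(projIcc 0 t ht z.1).2, mem_univ _⟩)
  have hGeq : ∀ r ∈ Icc 0 t, ∀ Y, G r Y = F' r Y := by
    intro r hr Y
    simp only [hG, projIcc_of_mem ht hr]
  have hG0 : ∀ r, ∀ Y, Y ∉ S → G r Y = 0 := fun r Y hY => h4 _ (projIcc 0 t ht r).2 Y hY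
  -- a bound
  obtain ⟨C, hC⟩ := (isCompact_Icc.prod hS).exists_bound_of_continuousOn
    (h2.mono (prod_mono_right (subset_univ S)))
  have hCb : ∀ r, ∀ Y ∈ S, ‖G r Y‖ ≤ C := fun r Y hY =>
    hC ((projIcc 0 t ht r : Icc 0 t), Y) ⟨(projIcc 0 t ht r).2, hY⟩
  set Ft : ℝ → E → ℝ := fun τ Y => F 0 Y + ∫ r in (0 : ℝ)..τ, G r Y with hFt
  have hFtc : ∀ τ, Continuous (Ft τ) := by
    intro τ
    refine h3.add ?_
    exact intervalIntegral.continuous_parametric_intervalIntegral_of_continuous' (by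
      exact hGc.comp continuous_swap) 0 τ
  have hFt0 : ∀ τ Y, Y ∉ S → Ft τ Y = 0 := by
    intro τ Y hY
    simp only [hFt, h5 Y hY, hG0 _ Y hY, intervalIntegral.integral_zero, add_zero]
  have hFteq : ∀ τ ∈ Icc 0 t, ∀ Y, F τ Y = Ft τ Y := by
    intro τ hτ Y
    have hsub : Icc 0 τ ⊆ Icc 0 t := Icc_subset_Icc_right hτ.2
    have e1 : ∫ r in (0 : ℝ)..τ, G r Y = F τ Y - F 0 Y := by
      apply intervalIntegral.integral_eq_sub_of_hasDerivAt_of_le (f := fun τ => F τ Y) hτ.1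
      · intro r hr
        exact (h1 Y r (hsub hr)).continuousWithinAt.mono hsub
      · intro r hr
        have hr' : r ∈ Icc 0 t := hsub ⟨hr.1.le, hr.2.le⟩
        rw [hGeq r hr' Y]
        exact (h1 Y r hr').hasDerivAt (Icc_mem_nhds hr.1 (hr.2.trans_le hτ.2))
      · exact (hGc.comp (continuous_id.prodMk continuous_const)).intervalIntegrable _ _
    simp only [hFt, e1]
    ring
  have hcs : ∀ f : E → ℝ, Continuous f → (∀ Y, Y ∉ S → f Y = 0) → Integrable f := by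
    intro f hf hf0
    exact hf.integrable_of_hasCompactSupport (HasCompactSupport.intro hS hf0)
  have key := hasDerivAt_integral_of_dominated_loc_of_deriv_le (μ := volume) (F := Ft) (F' := G)
    (x₀ := s) (s := univ) (bound := S.indicator fun _ => C) univ_mem
    (Eventually.of_forall fun τ => (hFtc τ).aestronglyMeasurable)
    (hcs _ (hFtc s) (hFt0 s))
    (hGc.comp (continuous_const.prodMk continuous_id)).aestronglyMeasurable
    (Eventually.of_forall fun Y τ _ => by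
      by_cases hY : Y ∈ S
      · rw [indicator_of_mem hY]
        exact hCb τ Y hY
      · rw [indicator_of_notMem hY, hG0 τ Y hY, norm_zero])
    ((integrable_indicator_iff hS.measurableSet).2
      (integrableOn_const hS.measure_lt_top.ne))
    (Eventually.of_forall fun Y τ _ => by
      have hl : Continuous fun r => G r Y := hGc.comp (continuous_id.prodMk continuous_const)
      exact (hl.integral_hasStrictDerivAt 0 τ).hasDerivAt.const_add (F 0 Y))
  have h6 := key.2.hasDerivWithinAt (s := Icc 0 t)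
  have e2 : ∫ Y, G s Y = ∫ Y, F' s Y := integral_congr_ae (Eventually.of_forall fun Y => hGeq s hs Y)
  rw [e2] at h6
  refine h6.congr_of_mem (fun τ hτ => ?_) hs
  exact integral_congr_ae (Eventually.of_forall fun Y => hFteq τ hτ Y)

/-! ## Velocity along a curve -/

theorem curve_deriv {t K : ℝ} {u g : ℝ → E → E} (hE : EulerOn t K u g univ) {y : ℝ → E} {y' : E}
    {s : ℝ} (hs : s ∈ Icc 0 t) (hy : HasDerivWithinAt y y' (Icc 0 t) s) :
    HasDerivWithinAt (fun τ => u τ (y τ))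
      (fderiv ℝ (u s) (y s) (y' - u s (y s)) - g s (y s)) (Icc 0 t) s := by
  obtain ⟨-, -, hO, hd, hc, -, -, -, -, -, htime⟩ := hE
  set x := y s with hx
  set A := fderiv ℝ (u s) x with hA
  have hyc : Tendsto y (𝓝[Icc 0 t] s) (𝓝 x) := hy.continuousWithinAt
  -- the remainder
  have hR : HasDerivWithinAt (fun τ => u τ (y τ) - u τ x - A (y τ - x)) 0 (Icc 0 t) s := by
    rw [hasDerivWithinAt_iff_isLittleO]
    have h1 : (fun τ => u τ (y τ) - u τ x - A (y τ - x)) =o[𝓝[Icc 0 t] s]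
        (fun τ => y τ - x) := by
      rw [Asymptotics.isLittleO_iff]
      intro ε hε
      obtain ⟨δ, hδ, h2⟩ := Pool.Agent.Helper33.Slab.space_inc hO hd hc hs (mem_univ x) hε
      have h3 : ∀ᶠ τ in 𝓝[Icc 0 t] s, ‖y τ - x‖ < δ := by
        have := hyc.eventually (Metric.ball_mem_nhds x hδ)
        filter_upwards [this] with τ hτ
        rw [← dist_eq_norm]; exact hτ
      have h4 : ∀ᶠ τ in 𝓝[Icc 0 t] s, |τ - s| < δ := by
        have : ∀ᶠ τ in 𝓝 s, τ ∈ Metric.ball s δ := Metric.ball_mem_nhds s hδ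
        filter_upwards [nhdsWithin_le_nhds this] with τ hτ
        rw [← Real.dist_eq]; exact hτ
      filter_upwards [h3, h4, self_mem_nhdsWithin] with τ h5 h6 h7
      exact h2 τ h7 h6 _ h5
    have h2 : (fun τ => y τ - x) =O[𝓝[Icc 0 t] s] (fun τ => τ - s) := by
      have h3 := hasDerivWithinAt_iff_isLittleO.mp hy
      have h4 : (fun τ => (τ - s) • y') =O[𝓝[Icc 0 t] s] (fun τ => τ - s) := by
        apply Asymptotics.IsBigO.of_bound ‖y'‖
        refine Eventually.of_forall fun τ => ?_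
        rw [norm_smul, mul_comm]
      have h5 := h3.isBigO.add h4
      refine h5.congr_left fun τ => ?_
      simp only [hx]; abel
    have h3 := h1.trans_isBigO h2
    refine h3.congr_left fun τ => ?_
    simp only [← hx, sub_self, map_zero, smul_zero, sub_zero]
  have hA1 : HasDerivWithinAt (fun τ => A (y τ - x)) (A y') (Icc 0 t) s :=
    A.hasFDerivAt.comp_hasDerivWithinAt s (hy.sub_const x)
  have h := (hR.add hA1).add (htime s hs x (mem_univ x))
  have e1 : (0 : E) + A y' + (-(fderiv ℝ (u s) x (u s x)) - g s x) =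
      A (y' - u s x) - g s x := by
    rw [map_sub, hA]; abel
  rw [e1] at h
  refine h.congr_of_mem (fun τ _ => ?_) hs
  simp only [Pi.add_apply]
  abel

/-! ## Calculus with dot products -/

theorem dot_hasDerivWithinAt {a b : ℝ → E} {a' b' : E} {S : Set ℝ} {s : ℝ}
    (ha : HasDerivWithinAt a a' S s) (hb : HasDerivWithinAt b b' S s) :
    HasDerivWithinAt (fun τ => a τ ⬝ᵥ b τ) (a' ⬝ᵥ b s + a s ⬝ᵥ b') S s := by
  have h1 : ∀ i ∈ (Finset.univ : Finset (Fin 3)), HasDerivWithinAt (fun τ => a τ i * b τ i)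
      (a' i * b s i + a s i * b' i) S s := fun i _ =>
    ((hasDerivWithinAt_pi.1 ha) i).mul ((hasDerivWithinAt_pi.1 hb) i)
  have h2 := HasDerivWithinAt.fun_sum h1
  rw [Finset.sum_add_distrib] at h2
  exact h2

theorem dot_hasFDerivAt {f g : E → E} {f' g' : E →L[ℝ] E} {Y : E} (hf : HasFDerivAt f f' Y)
    (hg : HasFDerivAt g g' Y) (h : E) :
    fderiv ℝ (fun Y => f Y ⬝ᵥ g Y) Y h = f' h ⬝ᵥ g Y + f Y ⬝ᵥ g' h := by
  have h1 : ∀ i ∈ (Finset.univ : Finset (Fin 3)), HasFDerivAt (fun Y => f Y i * g Y i)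
      (f Y i • (ContinuousLinearMap.proj i).comp g' + g Y i • (ContinuousLinearMap.proj i).comp f')
      Y := fun i _ => (hasFDerivAt_pi'.1 hf i).mul (hasFDerivAt_pi'.1 hg i)
  have h2 : HasFDerivAt (fun Y => f Y ⬝ᵥ g Y) (∑ i, (f Y i • (ContinuousLinearMap.proj i).comp g' +
      g Y i • (ContinuousLinearMap.proj i).comp f')) Y := HasFDerivAt.fun_sum h1
  rw [h2.fderiv]
  simp only [dotProduct, Fin.sum_univ_three, _root_.add_apply,
    _root_.smul_apply, ContinuousLinearMap.comp_apply,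
    ContinuousLinearMap.proj_apply, smul_eq_mul]
  ring

theorem dot_contDiff {f g : E → E} {n : ℕ∞} (hf : ContDiff ℝ n f) (hg : ContDiff ℝ n g) :
    ContDiff ℝ n (fun Y => f Y ⬝ᵥ g Y) := by
  unfold dotProduct
  exact ContDiff.sum fun i _ => (contDiff_pi.1 hf i).mul (contDiff_pi.1 hg i)

theorem dot_continuous {α : Type} [TopologicalSpace α] {f g : α → E} (hf : Continuous f)
    (hg : Continuous g) : Continuous (fun Y => f Y ⬝ᵥ g Y) := by
  unfold dotProduct
  exact continuous_finsetSum _ fun i _ =>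
    ((continuous_apply i).comp hf).mul ((continuous_apply i).comp hg)

theorem dot_continuousOn {α : Type} [TopologicalSpace α] {f g : α → E} {S : Set α}
    (hf : ContinuousOn f S) (hg : ContinuousOn g S) : ContinuousOn (fun Y => f Y ⬝ᵥ g Y) S := by
  unfold dotProduct
  exact continuousOn_finsetSum _ fun i _ =>
    ((continuous_apply i).comp_continuousOn hf).mul ((continuous_apply i).comp_continuousOn hg)

/-! ## Integration by parts -/

theorem int_fderiv_zero {f : E → ℝ} (hf : ContDiff ℝ 1 f) (hc : HasCompactSupport f) (v : E) :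
    ∫ Y, fderiv ℝ f Y v = 0 := by
  have h1 : Continuous (fun Y => fderiv ℝ f Y v) :=
    (hf.continuous_fderiv (by norm_num)).clm_apply continuous_const
  have h2 : HasCompactSupport (fun Y => fderiv ℝ f Y v) := hc.fderiv_apply (𝕜 := ℝ) v
  have h3 := integral_mul_fderiv_eq_neg_fderiv_mul_of_integrable (μ := (volume : Measure E))
    (f := fun _ : E => (1 : ℝ)) (g := f) (v := v) (𝕜 := ℝ) (by simp) (by
      simpa using h1.integrable_of_hasCompactSupport h2) (by
      simpa using hf.continuous.integrable_of_hasCompactSupport hc)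
      (fun x _ => differentiableAt_const _) (fun x _ => hf.differentiable (by norm_num) x)
  simpa using h3

theorem int_div_zero {f : E → E} (hf : ContDiff ℝ 1 f) (hc : HasCompactSupport f) :
    ∫ Y, ∑ i, fderiv ℝ f Y (ee i) i = 0 := by
  have h0 : ∀ i Y, fderiv ℝ f Y (ee i) i = fderiv ℝ (fun Y => f Y i) Y (ee i) := by
    intro i Y
    have h1 : HasFDerivAt f (fderiv ℝ f Y) Y := (hf.differentiable (by norm_num) Y).hasFDerivAt
    rw [(hasFDerivAt_pi'.1 h1 i).fderiv]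
    rfl
  have hfi : ∀ i : Fin 3, ContDiff ℝ 1 (fun Y => f Y i) := fun i => contDiff_pi.1 hf i
  have hci : ∀ i : Fin 3, HasCompactSupport (fun Y => f Y i) := fun i =>
    hc.comp_left (g := fun z : E => z i) rfl
  have h2 : ∀ i : Fin 3, Integrable (fun Y => fderiv ℝ f Y (ee i) i) := by
    intro i
    simp only [h0]
    exact (((hfi i).continuous_fderiv (by norm_num)).clm_apply
      continuous_const).integrable_of_hasCompactSupport ((hci i).fderiv_apply (𝕜 := ℝ) _)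
  rw [integral_finsetSum _ fun i _ => h2 i]
  refine Finset.sum_eq_zero fun i _ => ?_
  simp only [h0]
  exact int_fderiv_zero (hfi i) (hci i) _

theorem sum_ee (V : E) : ∑ i, V i • ee i = V := by
  funext j
  simp [ee, Finset.sum_apply, Pi.single_apply]

/-- integration by parts along a divergence-free field -/
theorem ibp {c : E → ℝ} {V : E → E} (hc : ContDiff ℝ 1 c) (hV : ContDiff ℝ 1 V)
    (hs : HasCompactSupport (fun Y => c Y • V Y)) (hdiv : ∀ Y, ∑ i, fderiv ℝ V Y (ee i) i = 0) :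
    ∫ Y, fderiv ℝ c Y (V Y) = 0 := by
  have h1 := int_div_zero (hc.smul hV) hs
  have h2 : ∀ Y, ∑ i, fderiv ℝ (fun Y => c Y • V Y) Y (ee i) i = fderiv ℝ c Y (V Y) := by
    intro Y
    have hcY : HasFDerivAt c (fderiv ℝ c Y) Y := (hc.differentiable (by norm_num) Y).hasFDerivAt
    have hVY : HasFDerivAt V (fderiv ℝ V Y) Y := (hV.differentiable (by norm_num) Y).hasFDerivAt
    rw [(hcY.fun_smul hVY).fderiv]
    simp only [_root_.add_apply, _root_.smul_apply,
      ContinuousLinearMap.smulRight_apply, Pi.add_apply, Pi.smul_apply, smul_eq_mul]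
    rw [Finset.sum_add_distrib, ← Finset.mul_sum, hdiv Y, mul_zero, zero_add]
    conv_rhs => rw [← sum_ee (V Y), map_sum]
    refine Finset.sum_congr rfl fun i _ => ?_
    rw [map_smul, smul_eq_mul, mul_comm]
  rw [← h1]
  exact integral_congr_ae (Eventually.of_forall fun Y => (h2 Y).symm)

/-! ## Linear algebra -/

theorem trn_dot (A : E →L[ℝ] E) (a b : E) : trn A a ⬝ᵥ b = a ⬝ᵥ A b := by
  conv_rhs => rw [← sum_ee b, map_sum, dotProduct_sum]
  simp only [map_smul, dotProduct_smul, smul_eq_mul]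
  unfold trn
  rw [dotProduct]
  exact Finset.sum_congr rfl fun i _ => mul_comm _ _

/-- `inv3 J` as a linear map -/
noncomputable def inv3L (J : E →L[ℝ] E) : E →L[ℝ] E :=
  LinearMap.toContinuousLinearMap
    { toFun := inv3 J
      map_add' := fun a b => by
        funext i
        simp only [inv3, Pi.add_apply, dotProduct_add]
      map_smul' := fun c a => by
        funext i
        simp only [inv3, Pi.smul_apply, dotProduct_smul, RingHom.id_apply] }

theorem inv3L_apply (J : E →L[ℝ] E) (z : E) : inv3L J z = inv3 J z := rfl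

theorem trace_eq (f : E →ₗ[ℝ] E) : LinearMap.trace ℝ E f = ∑ i, f (ee i) i := by
  rw [LinearMap.trace_eq_matrix_trace ℝ (Pi.basisFun ℝ (Fin 3)) f]
  simp only [Matrix.trace, Matrix.diag, LinearMap.toMatrix_apply, Pi.basisFun_apply,
    Pi.basisFun_repr, ee]

theorem tr_conj (COF : G_COF) (J : E →L[ℝ] E) (hJ : J.det = 1) (B : E →L[ℝ] E) :
    ∑ i, inv3 J (B (J (ee i))) i = ∑ i, B (ee i) i := by
  have h1 := LinearMap.trace_comp_comm' (R := ℝ) ((B.comp J : E →L[ℝ] E) : E →ₗ[ℝ] E)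
    ((inv3L J : E →L[ℝ] E) : E →ₗ[ℝ] E)
  rw [trace_eq, trace_eq] at h1
  refine h1.trans (Finset.sum_congr rfl fun i _ => ?_)
  change (B (J (inv3 J (ee i)))) i = _
  rw [(COF J hJ).2.2.1]

/-! ## The static identity -/

section static

variable {v : E → E} {x : E} {lam : ℝ} {J : E →L[ℝ] E}

theorem y_hasFDerivAt (x : E) (lam : ℝ) (J : E →L[ℝ] E) (Y : E) :
    HasFDerivAt (fun Y => x + lam⁻¹ • J Y) (lam⁻¹ • J) Y :=
  (J.hasFDerivAt.const_smul lam⁻¹).const_add x

theorem y_contDiff (x : E) (lam : ℝ) (J : E →L[ℝ] E) :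
    ContDiff ℝ 1 (fun Y => x + lam⁻¹ • J Y) :=
  contDiff_const.add (J.contDiff.const_smul lam⁻¹)

theorem w_hasFDerivAt (hv : ContDiff ℝ 1 v) (x : E) (lam : ℝ) (J : E →L[ℝ] E) (Y : E) :
    HasFDerivAt (wr v x lam J)
      ((lam⁻¹ • (fderiv ℝ v (x + lam⁻¹ • J Y) - fderiv ℝ v x)).comp J) Y := by
  have h1 : HasFDerivAt v (fderiv ℝ v (x + lam⁻¹ • J Y)) (x + lam⁻¹ • J Y) :=
    (hv.differentiable (by norm_num) _).hasFDerivAt
  have h2 := h1.comp Y (y_hasFDerivAt x lam J Y)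
  have h3 : HasFDerivAt (fun Y => lam⁻¹ • fderiv ℝ v x (J Y)) (lam⁻¹ • (fderiv ℝ v x).comp J) Y :=
    (((fderiv ℝ v x).comp J).hasFDerivAt).const_smul lam⁻¹
  have h4 := (h2.sub_const (v x)).fun_sub h3
  refine h4.congr_fderiv ?_
  ext h
  simp
  ring

theorem w_contDiff (hv : ContDiff ℝ 1 v) (x : E) (lam : ℝ) (J : E →L[ℝ] E) :
    ContDiff ℝ 1 (wr v x lam J) :=
  ((hv.comp (y_contDiff x lam J)).sub contDiff_const).sub
    (((fderiv ℝ v x).contDiff.comp J.contDiff).const_smul lam⁻¹)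

theorem moment {ψ : E → E} (hψ : Continuous ψ) (hψc : HasCompactSupport ψ)
    (h0 : ∀ i, ∫ Y, ψ Y i = 0) (h1 : ∀ i j, ∫ Y : E, Y j * ψ Y i = 0) (a : E) (L M : E →L[ℝ] E) :
    ∫ Y, (a + L Y) ⬝ᵥ M (ψ Y) = 0 := by
  have hci : ∀ i : Fin 3, HasCompactSupport (fun Y => ψ Y i) := fun i =>
    hψc.comp_left (g := fun z : E => z i) rfl
  have hc : ∀ i : Fin 3, Continuous (fun Y => ψ Y i) := fun i => (continuous_apply i).comp hψ
  have e1 : ∀ Y, (a + L Y) ⬝ᵥ M (ψ Y) = ∑ i, (ψ Y i * (a ⬝ᵥ M (ee i)) +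
      ∑ j, (Y j * ψ Y i) * (L (ee j) ⬝ᵥ M (ee i))) := by
    intro Y
    conv_lhs => rw [← sum_ee (ψ Y), map_sum, dotProduct_sum]
    refine Finset.sum_congr rfl fun i _ => ?_
    rw [map_smul, dotProduct_smul, add_dotProduct, smul_eq_mul, mul_add]
    congr 1
    have e2 : L Y = ∑ j, Y j • L (ee j) := by
      conv_lhs => rw [← sum_ee Y, map_sum]
      simp only [map_smul]
    rw [e2, sum_dotProduct, Finset.mul_sum]
    refine Finset.sum_congr rfl fun j _ => ?_
    rw [smul_dotProduct, smul_eq_mul]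
    ring
  simp only [e1]
  have i1 : ∀ i : Fin 3, Integrable (fun Y : E => ψ Y i * (a ⬝ᵥ M (ee i))) := fun i =>
    ((hc i).mul continuous_const).integrable_of_hasCompactSupport (hci i).mul_right
  have i2 : ∀ i j : Fin 3, Integrable (fun Y : E => (Y j * ψ Y i) * (L (ee j) ⬝ᵥ M (ee i))) :=
    fun i j => (((continuous_apply j).mul (hc i)).mul
      continuous_const).integrable_of_hasCompactSupport ((hci i).mul_left).mul_right
  have i3 : ∀ i : Fin 3, Integrable (fun Y : E =>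
      ∑ j, (Y j * ψ Y i) * (L (ee j) ⬝ᵥ M (ee i))) := fun i =>
    integrable_finsetSum _ fun j _ => i2 i j
  have i4 : ∀ i : Fin 3, Integrable (fun Y : E => ψ Y i * (a ⬝ᵥ M (ee i)) +
      ∑ j, (Y j * ψ Y i) * (L (ee j) ⬝ᵥ M (ee i))) := fun i => (i1 i).add (i3 i)
  rw [integral_finsetSum _ fun i _ => i4 i]
  refine Finset.sum_eq_zero fun i _ => ?_
  rw [integral_add (i1 i) (i3 i), integral_finsetSum _ fun j _ => i2 i j]
  simp only [integral_mul_const, h0, h1, zero_mul, Finset.sum_const_zero, add_zero]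

theorem grad_dot {pp : E → ℝ} {gg : E → E} (hpg : ∀ x j, pd j pp x = gg x j) (z h : E) :
    fderiv ℝ pp z h = gg z ⬝ᵥ h := by
  conv_lhs => rw [← sum_ee h, map_sum]
  rw [dotProduct]
  refine Finset.sum_congr rfl fun i _ => ?_
  rw [map_smul, smul_eq_mul, mul_comm, ← hpg z i]
  rfl

theorem grad_contDiff {pp : E → ℝ} {gg : E → E} (hp : Differentiable ℝ pp) (hg : Continuous gg)
    (hpg : ∀ x j, pd j pp x = gg x j) : ContDiff ℝ 1 pp := by
  rw [contDiff_one_iff_fderiv]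
  refine ⟨hp, ?_⟩
  rw [continuous_clm_apply]
  intro h
  simp only [grad_dot hpg]
  exact dot_continuous hg continuous_const

theorem fderiv_zero_out {ψ : E → E} {Y : E} (hY : Y ∉ tsupport ψ) : fderiv ℝ ψ Y = 0 := by
  by_contra h
  exact hY (support_fderiv_subset ℝ h)

theorem static (COF : G_COF) (hv : ContDiff ℝ 1 v)
    (hdiv : ∀ z, ∑ i, fderiv ℝ v z (ee i) i = 0) {pp : E → ℝ} {gg : E → E} (hg : Continuous gg)
    (hp : Differentiable ℝ pp) (hpg : ∀ z j, pd j pp z = gg z j) (x : E) (hlam : 0 < lam)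
    (hJ : J.det = 1) {ψ : E → E} (hψ : ContDiff ℝ 1 ψ) (hψc : HasCompactSupport ψ)
    (hψd : ∀ Y, ∑ i, fderiv ℝ ψ Y (ee i) i = 0) (h0 : ∀ i, ∫ Y, ψ Y i = 0)
    (h1 : ∀ i j, ∫ Y : E, Y j * ψ Y i = 0) :
    ∫ Y, ((fderiv ℝ v (x + lam⁻¹ • J Y) (-(wr v x lam J Y)) - gg (x + lam⁻¹ • J Y)) ⬝ᵥ J (ψ Y) +
        v (x + lam⁻¹ • J Y) ⬝ᵥ fderiv ℝ v x (J (ψ Y))) =
      ∫ Y, ((trn (fderiv ℝ v x) (wr v x lam J Y) - fderiv ℝ v x (wr v x lam J Y)) ⬝ᵥ J (ψ Y) +
        lam * (wr v x lam J Y ⬝ᵥ J (fderiv ℝ ψ Y (inv3 J (wr v x lam J Y))))) := by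
  set w := wr v x lam J with hw
  set A := fderiv ℝ v x with hA
  have hwC : ContDiff ℝ 1 w := w_contDiff hv x lam J
  have hwD := w_hasFDerivAt hv x lam J
  have hUC : ContDiff ℝ 1 (fun Y => inv3L J (w Y)) := (inv3L J).contDiff.comp hwC
  have hUD : ∀ Y, HasFDerivAt (fun Y => inv3L J (w Y))
      ((inv3L J).comp ((lam⁻¹ • (fderiv ℝ v (x + lam⁻¹ • J Y) - A)).comp J)) Y := fun Y =>
    (inv3L J).hasFDerivAt.comp Y (hwD Y)
  have hψD : ∀ Y, HasFDerivAt ψ (fderiv ℝ ψ Y) Y := fun Y =>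
    (hψ.differentiable (by norm_num) Y).hasFDerivAt
  have hJψC : ContDiff ℝ 1 (fun Y => J (ψ Y)) := J.contDiff.comp hψ
  have hJψD : ∀ Y, HasFDerivAt (fun Y => J (ψ Y)) (J.comp (fderiv ℝ ψ Y)) Y := fun Y =>
    J.hasFDerivAt.comp Y (hψD Y)
  -- the divergence of `U` vanishes
  have hUdiv : ∀ Y, ∑ i, fderiv ℝ (fun Y => inv3L J (w Y)) Y (ee i) i = 0 := by
    intro Y
    rw [(hUD Y).fderiv]
    have e1 := tr_conj COF J hJ (lam⁻¹ • (fderiv ℝ v (x + lam⁻¹ • J Y) - A))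
    refine (show _ = _ from e1).trans ?_
    have e2 : ∀ i, (lam⁻¹ • (fderiv ℝ v (x + lam⁻¹ • J Y) - A)) (ee i) i =
        lam⁻¹ * (fderiv ℝ v (x + lam⁻¹ • J Y) (ee i) i - A (ee i) i) := fun i => rfl
    simp only [e2]
    rw [← Finset.mul_sum, Finset.sum_sub_distrib, hdiv, hdiv, sub_zero, mul_zero]
  -- first integration by parts
  set c₁ : E → ℝ := fun Y => w Y ⬝ᵥ J (ψ Y) with hc₁
  have hc₁C : ContDiff ℝ 1 c₁ := dot_contDiff (n := 1) hwC hJψC
  have hc₁D : ∀ Y, fderiv ℝ c₁ Y (inv3L J (w Y)) =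
      (lam⁻¹ • (fderiv ℝ v (x + lam⁻¹ • J Y) (w Y) - A (w Y))) ⬝ᵥ J (ψ Y) +
        w Y ⬝ᵥ J (fderiv ℝ ψ Y (inv3 J (w Y))) := by
    intro Y
    rw [hc₁, dot_hasFDerivAt (hwD Y) (hJψD Y)]
    have e1 : J (inv3L J (w Y)) = w Y := (COF J hJ).2.2.1 (w Y)
    have e2 : ((lam⁻¹ • (fderiv ℝ v (x + lam⁻¹ • J Y) - A)).comp J) (inv3L J (w Y)) =
        lam⁻¹ • (fderiv ℝ v (x + lam⁻¹ • J Y) (J (inv3L J (w Y))) - A (J (inv3L J (w Y)))) := rfl
    rw [e2, e1]
    rfl
  have hψ0 : ∀ Y, Y ∉ tsupport ψ → ψ Y = 0 := fun Y hY => image_eq_zero_of_notMem_tsupport hY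
  have I1 : ∫ Y, fderiv ℝ c₁ Y (inv3L J (w Y)) = 0 := by
    refine ibp hc₁C hUC (HasCompactSupport.intro hψc fun Y hY => ?_) hUdiv
    rw [hc₁]
    simp only
    rw [hψ0 Y hY, map_zero, dotProduct_zero, zero_smul]
  -- second integration by parts
  set c₂ : E → ℝ := fun Y => pp (x + lam⁻¹ • J Y) with hc₂
  have hppC := grad_contDiff hp hg hpg
  have hc₂C : ContDiff ℝ 1 c₂ := hppC.comp (y_contDiff x lam J)
  have hc₂D : ∀ Y, fderiv ℝ c₂ Y (ψ Y) = lam⁻¹ * (gg (x + lam⁻¹ • J Y) ⬝ᵥ J (ψ Y)) := by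
    intro Y
    have e1 : HasFDerivAt c₂ ((fderiv ℝ pp (x + lam⁻¹ • J Y)).comp (lam⁻¹ • J)) Y :=
      ((hp (x + lam⁻¹ • J Y)).hasFDerivAt).comp Y (y_hasFDerivAt x lam J Y)
    rw [e1.fderiv]
    change fderiv ℝ pp (x + lam⁻¹ • J Y) (lam⁻¹ • J (ψ Y)) = _
    rw [grad_dot hpg, dotProduct_smul, smul_eq_mul]
  have I2 : ∫ Y, fderiv ℝ c₂ Y (ψ Y) = 0 := by
    refine ibp hc₂C hψ (HasCompactSupport.intro hψc fun Y hY => ?_) hψd
    rw [hψ0 Y hY, smul_zero]
  -- the moments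
  have I3 : ∫ Y, (v x + (lam⁻¹ • A.comp J) Y) ⬝ᵥ (A.comp J) (ψ Y) = 0 :=
    moment hψ.continuous hψc h0 h1 _ _ _
  -- integrability
  have hint : ∀ f : E → ℝ, Continuous f → (∀ Y, Y ∉ tsupport ψ → f Y = 0) → Integrable f :=
    fun f hf hf0 => hf.integrable_of_hasCompactSupport (HasCompactSupport.intro hψc hf0)
  have hwc : Continuous w := hwC.continuous
  have hJψc : Continuous (fun Y => J (ψ Y)) := hJψC.continuous
  have hJDc : Continuous (fun Y => J (fderiv ℝ ψ Y (inv3 J (w Y)))) :=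
    J.continuous.comp ((hψ.continuous_fderiv (by norm_num)).clm_apply hUC.continuous)
  have htrn : Continuous (fun Y => trn A (w Y)) := by
    refine continuous_pi fun i => ?_
    exact dot_continuous hwc continuous_const
  have J0 : Integrable (fun Y => (trn A (w Y) - A (w Y)) ⬝ᵥ J (ψ Y) +
      lam * (w Y ⬝ᵥ J (fderiv ℝ ψ Y (inv3 J (w Y))))) := by
    refine hint _ ((dot_continuous (htrn.sub (A.continuous.comp hwc)) hJψc).add
      (continuous_const.mul (dot_continuous hwc hJDc))) fun Y hY => ?_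
    rw [hψ0 Y hY, fderiv_zero_out hY]
    simp
  have J1 : Integrable (fun Y => fderiv ℝ c₁ Y (inv3L J (w Y))) := by
    refine hint _ ((hc₁C.continuous_fderiv (by norm_num)).clm_apply hUC.continuous) fun Y hY => ?_
    rw [hc₁D, hψ0 Y hY, fderiv_zero_out hY]
    simp
  have J2 : Integrable (fun Y => fderiv ℝ c₂ Y (ψ Y)) := by
    refine hint _ ((hc₂C.continuous_fderiv (by norm_num)).clm_apply hψ.continuous) fun Y hY => ?_
    rw [hψ0 Y hY, map_zero]
  have J3 : Integrable (fun Y => (v x + (lam⁻¹ • A.comp J) Y) ⬝ᵥ (A.comp J) (ψ Y)) := by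
    refine hint _ (dot_continuous (continuous_const.add (ContinuousLinearMap.continuous _))
      ((A.comp J).continuous.comp hψ.continuous)) fun Y hY => ?_
    rw [hψ0 Y hY, map_zero, dotProduct_zero]
  have hlam' : lam ≠ 0 := hlam.ne'
  have key : ∀ Y, (fderiv ℝ v (x + lam⁻¹ • J Y) (-(w Y)) - gg (x + lam⁻¹ • J Y)) ⬝ᵥ J (ψ Y) +
        v (x + lam⁻¹ • J Y) ⬝ᵥ A (J (ψ Y)) =
      ((trn A (w Y) - A (w Y)) ⬝ᵥ J (ψ Y) + lam * (w Y ⬝ᵥ J (fderiv ℝ ψ Y (inv3 J (w Y))))) +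
        (-lam) * fderiv ℝ c₁ Y (inv3L J (w Y)) + (-lam) * fderiv ℝ c₂ Y (ψ Y) +
        (v x + (lam⁻¹ • A.comp J) Y) ⬝ᵥ (A.comp J) (ψ Y) := by
    intro Y
    have e1 : v (x + lam⁻¹ • J Y) = w Y + (v x + (lam⁻¹ • A.comp J) Y) := by
      change _ = (v (x + lam⁻¹ • J Y) - v x - lam⁻¹ • A (J Y)) + (v x + lam⁻¹ • A (J Y))
      abel
    have e2 : (A.comp J) (ψ Y) = A (J (ψ Y)) := rfl
    rw [hc₁D, hc₂D, e1, e2, map_neg]
    simp only [add_dotProduct, sub_dotProduct, neg_dotProduct, smul_dotProduct, smul_eq_mul,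
      trn_dot]
    field_simp
    ring
  simp only [key]
  have K1 : Integrable (fun Y => (-lam) * fderiv ℝ c₁ Y (inv3L J (w Y))) := J1.const_mul _
  have K2 : Integrable (fun Y => (-lam) * fderiv ℝ c₂ Y (ψ Y)) := J2.const_mul _
  have K3 : Integrable (fun Y => ((trn A (w Y) - A (w Y)) ⬝ᵥ J (ψ Y) +
      lam * (w Y ⬝ᵥ J (fderiv ℝ ψ Y (inv3 J (w Y))))) +
        (-lam) * fderiv ℝ c₁ Y (inv3L J (w Y))) := J0.add K1
  have K4 : Integrable (fun Y => ((trn A (w Y) - A (w Y)) ⬝ᵥ J (ψ Y) +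
      lam * (w Y ⬝ᵥ J (fderiv ℝ ψ Y (inv3 J (w Y))))) +
        (-lam) * fderiv ℝ c₁ Y (inv3L J (w Y)) + (-lam) * fderiv ℝ c₂ Y (ψ Y)) := K3.add K2
  rw [integral_add K4 J3, integral_add K3 K2, integral_add J0 K1,
    integral_const_mul, integral_const_mul, I1, I2, I3]
  simp

end static

/-! ## The evolution -/

theorem thm (COF : G_COF) : G_EV := by
  intro α t K u g p φ J ht hL X lam ψ hlam hψ hψc hψd hψ0 hψ1 s hs
  obtain ⟨hE, hpres, -, hflow, hjac, hjcont, hjdet, -⟩ := hL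
  obtain ⟨-, hlip, hO, hd, hDc, hdiv, -, hgc, -, -, -⟩ := id hE
  have h0 : (0 : ℝ) ∈ Icc 0 t := ⟨le_rfl, ht⟩
  -- regularity at a fixed time
  have huC : ∀ s ∈ Icc 0 t, ContDiff ℝ 1 (u s) := by
    intro s hs
    rw [contDiff_one_iff_fderiv]
    refine ⟨fun x => hd s hs x (mem_univ x), ?_⟩
    exact hDc.comp_continuous (continuous_const.prodMk continuous_id)
      (fun x => ⟨hs, mem_univ _⟩)
  have hgC : ∀ s ∈ Icc 0 t, Continuous (g s) := fun s hs =>
    hgc.comp_continuous (continuous_const.prodMk continuous_id) (fun x => ⟨hs, mem_univ _⟩)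
  -- joint continuity
  set S : Set (ℝ × E) := Icc 0 t ×ˢ univ with hS
  have hφ1 : ContinuousOn (fun s => φ s X) (Icc 0 t) := fun r hr =>
    (hflow.2 X r hr).continuousWithinAt
  have hfst : ContinuousOn (fun z : ℝ × E => z.1) S := continuousOn_fst
  have hsnd : ContinuousOn (fun z : ℝ × E => z.2) S := continuousOn_snd
  have hx : ContinuousOn (fun z : ℝ × E => φ z.1 X) S := hφ1.comp hfst fun z hz => hz.1
  have hJJ : ContinuousOn (fun z : ℝ × E => J z.1 X) S :=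
    hjcont.comp (hfst.prodMk continuousOn_const) fun z hz => ⟨hz.1, mem_univ _⟩
  have hJY : ContinuousOn (fun z : ℝ × E => J z.1 X z.2) S := hJJ.clm_apply hsnd
  have hy : ContinuousOn (fun z : ℝ × E => φ z.1 X + lam⁻¹ • J z.1 X z.2) S :=
    hx.add (hJY.const_smul lam⁻¹)
  have hcomp : ∀ {f : ℝ × E → E}, ContinuousOn f S →
      ContinuousOn (fun z : ℝ × E => u z.1 (f z)) S := fun hf =>
    hlip.2.1.comp (hfst.prodMk hf) fun z hz => ⟨hz.1, mem_univ _⟩
  have hcompD : ∀ {f : ℝ × E → E}, ContinuousOn f S →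
      ContinuousOn (fun z : ℝ × E => fderiv ℝ (u z.1) (f z)) S := fun hf =>
    hDc.comp (hfst.prodMk hf) fun z hz => ⟨hz.1, mem_univ _⟩
  have hcompg : ∀ {f : ℝ × E → E}, ContinuousOn f S →
      ContinuousOn (fun z : ℝ × E => g z.1 (f z)) S := fun hf =>
    hgc.comp (hfst.prodMk hf) fun z hz => ⟨hz.1, mem_univ _⟩
  have hw : ContinuousOn (fun z : ℝ × E => wr (u z.1) (φ z.1 X) lam (J z.1 X) z.2) S :=
    ((hcomp hy).sub (hcomp hx)).sub (((hcompD hx).clm_apply hJY).const_smul lam⁻¹)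
  have hψz : ContinuousOn (fun z : ℝ × E => ψ z.2) S :=
    (hψ.continuous.comp continuous_snd).continuousOn
  have hJψ : ContinuousOn (fun z : ℝ × E => J z.1 X (ψ z.2)) S := hJJ.clm_apply hψz
  -- the derivative of the integrand
  have hder : ∀ Y, ∀ s ∈ Icc 0 t, HasDerivWithinAt
      (fun s => u s (φ s X + lam⁻¹ • J s X Y) ⬝ᵥ J s X (ψ Y))
      ((fderiv ℝ (u s) (φ s X + lam⁻¹ • J s X Y) (-(wr (u s) (φ s X) lam (J s X) Y)) -
        g s (φ s X + lam⁻¹ • J s X Y)) ⬝ᵥ J s X (ψ Y) +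
        u s (φ s X + lam⁻¹ • J s X Y) ⬝ᵥ fderiv ℝ (u s) (φ s X) (J s X (ψ Y))) (Icc 0 t) s := by
    intro Y s hs
    have hJd := ((hjac X (mem_univ X)).2 s hs).2
    have hJap : ∀ Z : E, HasDerivWithinAt (fun τ => J τ X Z)
        (fderiv ℝ (u s) (φ s X) (J s X Z)) (Icc 0 t) s := fun Z =>
      ((ContinuousLinearMap.apply ℝ E Z).hasFDerivAt.comp_hasDerivWithinAt s hJd)
    have hyd : HasDerivWithinAt (fun τ => φ τ X + lam⁻¹ • J τ X Y)
        (u s (φ s X) + lam⁻¹ • fderiv ℝ (u s) (φ s X) (J s X Y)) (Icc 0 t) s :=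
      (hflow.2 X s hs).add ((hJap Y).const_smul lam⁻¹)
    have h1 := curve_deriv hE hs hyd
    have e1 : u s (φ s X) + lam⁻¹ • fderiv ℝ (u s) (φ s X) (J s X Y) -
        u s (φ s X + lam⁻¹ • J s X Y) = -(wr (u s) (φ s X) lam (J s X) Y) := by
      unfold wr
      abel
    rw [e1] at h1
    exact dot_hasDerivWithinAt h1 (hJap (ψ Y))
  have key := deriv_int ht hψc.isCompact hder ?_ ?_ ?_ ?_ s hs
  · have hst := static COF (J := J s X) (huC s hs)
      (fun z => hdiv s hs z (mem_univ z)) (hgC s hs) (hpres s hs).1 (hpres s hs).2 (φ s X) hlam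
      (hjdet X s hs) hψ hψc hψd hψ0 hψ1
    rw [hst] at key
    exact key
  · exact (dot_continuousOn (((hcompD hy).clm_apply hw.neg).sub (hcompg hy)) hJψ).add
      (dot_continuousOn (hcomp hy) ((hcompD hx).clm_apply hJψ))
  · have h1 : Continuous (fun Y => u 0 (φ 0 X + lam⁻¹ • J 0 X Y)) :=
      (huC 0 h0).continuous.comp (y_contDiff (φ 0 X) lam (J 0 X)).continuous
    exact dot_continuous h1 ((J 0 X).continuous.comp hψ.continuous)
  · intro s _ Y hY
    have h1 : ψ Y = 0 := image_eq_zero_of_notMem_tsupport hY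
    simp only [h1, map_zero, dotProduct_zero, add_zero]
  · intro Y hY
    have h1 : ψ Y = 0 := image_eq_zero_of_notMem_tsupport hY
    simp only [h1, map_zero, dotProduct_zero]

end Pool.Agent.Helper73.Torus
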